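import Mathlib
import Pool.Agent.H933.LL.Stm3

/-!
# P_det: determinant and inverse of a matrix with bounded entries (helper870)
-/

set_option autoImplicit false

namespace Pool.Agent.H870.LL

open Pool.Agent.H933.LL

theorem det_bd (n : ℕ) (G : Matrix (Fin n) (Fin n) ℂ) (g : ℝ) (hg : 1 ≤ g)
    (h : ∀ i j, ‖G i j‖ ≤ g) : ‖G.det‖ ≤ (n * g) ^ n := by
  have h1 := Matrix.det_le (A := G) (abv := (NormedField.toAbsoluteValue ℂ)) (x := g)
    (fun i j => h i j)
  have h2 : ‖G.det‖ ≤ Nat.factorial (Fintype.card (Fin n)) • g ^ Fintype.card (Fin n) := h1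
  rw [Fintype.card_fin, nsmul_eq_mul] at h2
  refine h2.trans ?_
  rw [mul_pow]
  have h3 : ((Nat.factorial n : ℕ) : ℝ) ≤ (n : ℝ) ^ n := by
    exact_mod_cast Nat.factorial_le_pow n
  exact mul_le_mul_of_nonneg_right h3 (by positivity)

theorem p_det : P_det := by
  intro n G g hg h
  refine ⟨det_bd n G g hg h, fun hd i j => ?_⟩
  rw [Matrix.inv_def, Matrix.smul_apply, smul_eq_mul, Ring.inverse_eq_inv', norm_mul, norm_inv,
    Matrix.adjugate_apply, div_eq_inv_mul]
  refine mul_le_mul_of_nonneg_left (det_bd n _ g hg ?_) (by positivity)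
  intro a b
  by_cases ha : a = j
  · subst ha
    rw [Matrix.updateRow_self]
    by_cases hb : b = i
    · subst hb
      rw [Pi.single_eq_same, norm_one]
      exact hg
    · rw [Pi.single_eq_of_ne hb, norm_zero]
      linarith
  · rw [Matrix.updateRow_ne ha]
    exact h a b

end Pool.Agent.H870.LL
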